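import Pool.Agent.Q87.TTZD

/-! Full answer (no): the `3 × 3` Toeplitz matrix `T = [[2, i, -1], [i, 2, i], [-1, i, 2]]` is
unitarily equivalent to a truncated Toeplitz operator (on the model space of `z³`), and `T ⊕ 0` is
not unitarily equivalent to any truncated Toeplitz operator. -/

set_option autoImplicit false
open Q87.TTZ

namespace Pool.Agent.Results.MP_3d2409_an.NoSumZero

/-- `T` is unitarily equivalent to a truncated Toeplitz operator and `T ⊕ 0` is not. -/
theorem result : UnitarilyTTO TT ∧ ¬ UnitarilyTTO (plusZero TT) := ⟨tto_TT, not_tto⟩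

end Pool.Agent.Results.MP_3d2409_an.NoSumZero
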